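import Pool.Agent.U26.SG.Ht

/-!
# The areas of the sets where an eigenfunction is positive or negative (MP_a52643_an)

The hyperbolic plane is the half plane `HP = {im z > 0}` with the metric `|dz|² / (im z)²`; an open
subset `Ω` of finite area is a chart, or a fundamental domain up to a null set, of a hyperbolic
surface `X = Γ\𝔥`. The eigenfunctions are real functions `u n` on `HP` with `y² Δ u + λ_n u = 0`,
`λ_n → ∞`, which are quantum ergodic over `Ω` (definitions in `Pool.Agent.N661.BH.Stm`); by the theorem
of Shnirelman, Zelditch and Colin de Verdière the eigenfunctions of the problem file, multiplied by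
`Vol(X)^(1/2)`, have this property along a subsequence of density one, and for the Hecke-Maass forms
of the modular surface all of them have it (Lindenstrauss, Soundararajan).

If the value distribution of `u n` tends to a centred Gaussian law, then `u n` is positive on one half
of `X`, asymptotically. The theorem says that every quantum ergodic sequence is positive, and
negative, on at least the proportion `c = (2√3 - 3)/3 = 0.1547...` of the set where `|u| ≥ ε`, up to
an error `ε` times the area: the constant does not depend on the surface. Nothing is assumed about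
the limits of the laws of the `u n`.

Proof idea. Every subsequence has a subsequence such that the laws of the functions `u n`, seen at the
scale of the wavelength in a random orthonormal frame at a random point of `Ω`, converge to a law `μ`
on the space `MW` of the solutions of `Δf + f = 0` on the plane (proved here by a compactness theorem
for the laws of the Taylor coefficients). `MW` is exhausted, up to a `μ`-null set, by invariant events
on which `f(0)` has a finite fourth moment (compensated compactness, library of MP_4fa179_mp), and on
these `E[f(0) | I] = 0` and `E[f(0)⁴ | I] ≤ 3 E[f(0)² | I]²` for the σ-algebra `I` of invariant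
events. This bounds the probability of `f(0) > 0` from below, by `c μ{f(0) ≠ 0}`, by the integral of
a suitable polynomial of degree four (He, Zhang, Zhang), and the laws of the `u n` converge weakly
to that of `f(0)`.
-/

set_option autoImplicit false
open MeasureTheory Filter Topology Complex ProbabilityTheory
open scoped ContDiff

namespace Pool.Agent.Results.MP_a52643_an.SignAreas

open Pool.Agent.W745.RW (lap)
open Pool.Agent.N661.BH (HP IsQuantumErgodic)

/-- the constant `c = (2√3 - 3)/3 = 0.1547...` -/
noncomputable def c : ℝ := (2 * √3 - 3) / 3

/-- the hyperbolic area of a subset of the half plane -/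
noncomputable def harea (A : Set ℂ) : ℝ := ∫ z in A, 1 / z.im ^ 2

/-- **Result.** Let `Ω ⊆ HP` be a nonempty open set of finite hyperbolic area and let `u n` be real
eigenfunctions of the hyperbolic Laplacian, `y² Δu + λ_n u = 0` on `HP`, `λ_n → ∞`, which are quantum
ergodic in the unit cotangent bundle over `Ω`. Let `c = (2√3 - 3)/3 > 0.15`. Then for every `ε > 0`
and all large `n` the hyperbolic areas of `{u n > 0}` and of `{u n < 0}` in `Ω` are at least `c`
times the area of `{|u n| ≥ ε}`, minus `ε area(Ω)`. -/
theorem result (Ω : Set ℂ) (hΩ : IsOpen Ω) (hHP : Ω ⊆ HP) (hne : Ω.Nonempty)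
    (hA : IntegrableOn (fun z : ℂ => 1 / z.im ^ 2) Ω)
    (lam : ℕ → ℝ) (hpos : ∀ n, 0 < lam n) (hlam : Tendsto lam atTop atTop)
    (u : ℕ → ℂ → ℝ) (hu : ∀ n, ContDiffOn ℝ ∞ (u n) HP)
    (heq : ∀ n, ∀ z ∈ HP, z.im ^ 2 * lap (u n) z + lam n * u n z = 0)
    (hqe : IsQuantumErgodic Ω lam u) :
    15 / 100 < c ∧ ∀ ε : ℝ, 0 < ε → ∀ᶠ n in atTop,
      c * harea {z | z ∈ Ω ∧ ε ≤ |u n z|} - ε * harea Ω ≤ harea {z | z ∈ Ω ∧ 0 < u n z} ∧
      c * harea {z | z ∈ Ω ∧ ε ≤ |u n z|} - ε * harea Ω ≤ harea {z | z ∈ Ω ∧ u n z < 0} :=
  ⟨Pool.Agent.U26.SB.cst_gt, fun _ hε => Pool.Agent.U26.SG.hyp_all Pool.Agent.U26.SG.hy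
    hΩ hHP hne hA hpos hlam hu heq hqe hε⟩

end Pool.Agent.Results.MP_a52643_an.SignAreas
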