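import Pool.Agent.U34.BW.Val

/-!
# The random wave conjecture for the value distribution holds after arbitrarily small perturbations

Let `X` be a surface as in (i) or (ii) of the problem, or any other probability space `(X, μ)` with
real functions `φ i`, orthonormal in `L²(μ)`, and numbers `0 ≤ lam 0 ≤ lam 1 ≤ ... → ∞`, which satisfy
Weyl's law and the local Weyl law with a remainder `O(n ^ θ)`, `θ < 1`. For a compact surface,
`φ i = √(Vol X)` times the eigenfunctions and `lam i` the eigenvalues of `-Δ`, both laws hold with
`θ = 1/2` (Avakumović, Levitan, Hörmander).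

Let `D` be the operator with `D φ i = lam i φ i` (for a surface: `-Δ` on `H`). For every `ε > 0` and
`σ > θ` there is a symmetric operator `k` with `‖k a‖ ≤ ε ‖(1 + D) ^ σ a‖` such that `D + k` has a simple
spectrum `lam' 0 < lam' 1 < ...` and an orthonormal basis of eigenfunctions `v j` (real, finite
combinations of the `φ i`, unique up to the signs), all of which, without exceptional subsequence,
become Gaussian, even on every part of the space: for every measurable `A` and every bounded
continuous `g`, `∫_A g(± v j) dμ → μ(A) ∫ g dN(0, 1)`. So Q1 is true for `D + k`.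

Proof: the `φ i` are mixed in blocks of `N = 2 ^ m ≈ b ^ θ'` consecutive indices, `θ < θ' < σ`, by a
Hadamard matrix and signs: `v j = N ^ (-1/2) ∑ H j i s i φ i`. The mean of `∫ cos(t v j) dν` over the
signs is `∫ ∏ cos(t φ i / √N) dν → exp(-t²/2)`, by the local Weyl law. Bessel's inequality gives
that the discrete gradient with respect to the signs is `O(N ^ (-1/2))`, so (Efron-Stein, fourth
moments) there are signs which are good for all `j` in the block, all rational `t` and countably many
`ν` (the normalised restrictions of `μ` to a dense family of sets) at the same time.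
-/

set_option autoImplicit false

open MeasureTheory Filter Topology ProbabilityTheory
open scoped BoundedContinuousFunction
open Pool.Agent.U34.BW

namespace Pool.Agent.Results.MP_a52643_an.SmallPerturbations

/-- **Berry's random wave conjecture (value distribution) after arbitrarily small perturbations.** -/
theorem result (X : Type) [MeasurableSpace X] [MeasurableSpace.CountablyGenerated X]
    (μ : Measure X) [IsProbabilityMeasure μ]
    (φ : ℕ → X → ℝ) (lam : ℕ → ℝ) (θ : ℝ) (hθ0 : 0 ≤ θ) (hθ1 : θ < 1)
    (h : WeylSystem μ φ lam θ) (σ ε : ℝ) (hσ : θ < σ) (hε : 0 < ε) :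
    ∃ (k u : ℕ → ℕ → ℝ) (I : ℕ → Finset ℕ) (lam' : ℕ → ℝ), Perturb lam ε σ k u I lam' ∧
      ∀ e : ℕ → ℝ, (∀ j, e j = 1 ∨ e j = -1) → ∀ A : Set X, MeasurableSet A → ∀ g : ℝ →ᵇ ℝ,
        Tendsto (fun j => ∫ x in A, g (e j * ∑ i ∈ I j, u j i * φ i x) ∂μ) atTop
          (𝓝 (μ.real A * ∫ y, g y ∂(gaussianReal 0 1))) :=
  value hθ0 hθ1 hσ hε h

end Pool.Agent.Results.MP_a52643_an.SmallPerturbations
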