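import Pool.Agent.U39.SZ.VW
import Pool.Agent.U39.SZ.ZS

/-!
# Sublevel estimates for limits of eigenfunctions, with universal constants (MP_a52643_an)

Every weak limit of the laws of Laplace eigenfunctions `φ_j` (normalised in `L²`) of a compact
Riemannian manifold of dimension `d`, or of a noncompact surface of finite area, is the law of
`F(0)` for a stationary random field `F` on `ℝ^d` with smooth samples, `ΔF + F = 0` and
`E F(0)² < ∞` (a limit of the fields `φ_j` near a random point, at the scale of the wavelength). The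
theorem is about all such fields, and about all polynomials `H` in their partial derivatives. It is
the analogue, for random waves, of van der Corput's lemma on sublevel sets: `H(x)` is in `A` and the
derivative of order `n` of `H` is at least `c` only with probability `O((|A| / c)^{1/n})`. For `n = 2`
and `H = F` this bounds the law of `F(x)` itself, because `ΔF = - F`. The constants depend only on
the degree of `H` and the dimension: not on the manifold, and not on the normalisation of the
functions. The starting file `SquareRootBound` has the exponent `1/2` for surfaces, with a constant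
which depends on the surface and on the `L²` norms.

Proof idea. (1) By the sharp bound for zeros on lines (MP_4fa179_mp.ZerosOnLines) a polynomial `H` of
degree `m` takes every value at most `m / π` times per unit length of every line, in the mean. By the
formula for the total variation of a function of one variable this gives
`E [|∂_v H(x)|; H(x) ∈ A] ≤ (m / π) |A|` for all Borel sets `A` and all unit vectors `v`. (2) The same
holds for the derivatives `∂_v^l H`, which are polynomials of degree `m` in the partial derivatives of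
`F`. (3) If `H ∈ A` and `|∂_v^n H| ≥ c`, then `|∂_v^(l+1) H| ≥ η_(l+1)` and `|∂_v^l H| < η_l` for some `l`
(`H ∈ A` if `l = 0`, and `η_n = c`). The probability is at most `(m / π) 2 η_l / η_(l+1)`. Take the sum
and choose `η_1, …, η_(n-1)` so that all terms are equal.
-/

set_option autoImplicit false
open MeasureTheory Filter Topology
open scoped ContDiff ENNReal

namespace Pool.Agent.Results.MP_a52643_an.SublevelEstimates

noncomputable section

/-- the Laplacian `∑ ∂_i²` of `ℝ^d` -/
def laplacian {d : ℕ} (f : EuclideanSpace ℝ (Fin d) → ℝ) (y : EuclideanSpace ℝ (Fin d)) : ℝ :=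
  ∑ i, fderiv ℝ (fun z => fderiv ℝ f z (EuclideanSpace.single i 1)) y (EuclideanSpace.single i 1)

/-- `F` is a stationary random field on `ℝ^d` with smooth samples, `ΔF + F = 0` and `E F(0)² < ∞`.
Stationary means: the shifted field has the same law, in the product of copies of `ℝ` indexed by
the points of `ℝ^d`. -/
structure IsStationaryWave {d : ℕ} {S : Type*} [MeasurableSpace S] (P : Measure S)
    (F : S → EuclideanSpace ℝ (Fin d) → ℝ) : Prop where
  prob : IsProbabilityMeasure P
  measurable : ∀ y, Measurable fun s => F s y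
  smooth : ∀ s, ContDiff ℝ ∞ (F s)
  eigen : ∀ s y, laplacian (F s) y + F s y = 0
  stationary : ∀ x : EuclideanSpace ℝ (Fin d),
    P.map (fun s y => F s (y + x)) = P.map (fun s y => F s y)
  moment : Integrable (fun s => F s 0 ^ 2) P

/-- partial derivatives: `partialD [i₁, …, iₖ] f = ∂_{i₁} ⋯ ∂_{iₖ} f`, and `partialD [] f = f` -/
def partialD {d : ℕ} : List (Fin d) → (EuclideanSpace ℝ (Fin d) → ℝ) →
    EuclideanSpace ℝ (Fin d) → ℝ
  | [], f => f
  | i :: L, f => fun y => fderiv ℝ (partialD L f) y (EuclideanSpace.single i 1)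

/-- the polynomial `Q` in the partial derivatives of `f`, of all orders, at the point `y` -/
def diffPoly {d : ℕ} (Q : MvPolynomial (List (Fin d)) ℝ) (f : EuclideanSpace ℝ (Fin d) → ℝ)
    (y : EuclideanSpace ℝ (Fin d)) : ℝ :=
  MvPolynomial.eval (fun L => partialD L f y) Q

/-- the derivative of order `n` of `H = Q(f, ∂f, …)` in the direction `v`, at the point `x` -/
def directional {d : ℕ} (Q : MvPolynomial (List (Fin d)) ℝ) (f : EuclideanSpace ℝ (Fin d) → ℝ)
    (x v : EuclideanSpace ℝ (Fin d)) (n : ℕ) : ℝ :=
  iteratedDeriv n (fun t : ℝ => diffPoly Q f (x + t • v)) 0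

open Pool.Agent.U39.SZ in
lemma partialD_eq {d : ℕ} (L : List (Fin d)) (f : EuclideanSpace ℝ (Fin d) → ℝ) :
    partialD L f = jt L f := by
  induction L with
  | nil => rfl
  | cons i L ih =>
    show (fun y => fderiv ℝ (partialD L f) y (EuclideanSpace.single i 1)) = _
    rw [ih]
    rfl

open Pool.Agent.U39.SZ in
lemma diffPoly_eq {d : ℕ} (Q : MvPolynomial (List (Fin d)) ℝ)
    (f : EuclideanSpace ℝ (Fin d) → ℝ) : diffPoly Q f = po Q f := by
  funext y
  unfold diffPoly po
  simp only [partialD_eq]

/-- **Result.** (1) Let `F` be a stationary wave on `ℝ^d`, let `H = Q(F, ∂F, ∂²F, …)` be a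
polynomial of degree `m` in finitely many partial derivatives of `F`, of arbitrary orders, let `x` be
a point, `v_1, …, v_k` unit vectors, `n ≥ 1`, `c > 0` and `A` a Borel set of finite length `|A|`. The
probability that `H(x) ∈ A` and `∑_j |∂_{v_j}^n H(x)| ≥ c` is at most
`n (m k / π) (2^{n-1} |A| / c)^{1/n}`. (2) In particular (`H = F`, `n = 2`, the coordinate vectors) the
probability that `F(x) ∈ A` and `|F(x)| ≥ c` is at most `(2 √2 d / π) (|A| / c)^{1/2}`. (3) The exponent
in (2) is optimal in every dimension `d ≥ 1`: there is a stationary wave with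
`P(1 - ε ≤ F(0) ≤ 1) ≥ (2 ε)^{1/2} / π` for all `0 < ε ≤ 1`. -/
theorem result.{u} :
    (∀ (d : ℕ) (S : Type u) (_ : MeasurableSpace S) (P : Measure S)
      (F : S → EuclideanSpace ℝ (Fin d) → ℝ), IsStationaryWave P F →
      ∀ (Q : MvPolynomial (List (Fin d)) ℝ) (x : EuclideanSpace ℝ (Fin d)) (k : ℕ)
        (v : Fin k → EuclideanSpace ℝ (Fin d)), (∀ j, ‖v j‖ = 1) →
      ∀ (n : ℕ), 1 ≤ n → ∀ (A : Set ℝ), MeasurableSet A → volume A ≠ ⊤ → ∀ c : ℝ, 0 < c →
        P.real {s | diffPoly Q (F s) x ∈ A ∧ c ≤ ∑ j, |directional Q (F s) x (v j) n|} ≤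
          n * (Q.totalDegree * k / Real.pi) *
            (2 ^ (n - 1) * volume.real A / c) ^ (1 / (n : ℝ))) ∧
    (∀ (d : ℕ) (S : Type u) (_ : MeasurableSpace S) (P : Measure S)
      (F : S → EuclideanSpace ℝ (Fin d) → ℝ), IsStationaryWave P F →
      ∀ (x : EuclideanSpace ℝ (Fin d)) (A : Set ℝ), MeasurableSet A → volume A ≠ ⊤ →
      ∀ c : ℝ, 0 < c →
        P.real {s | F s x ∈ A ∧ c ≤ |F s x|} ≤
          2 * √2 * d / Real.pi * √(volume.real A / c)) ∧
    (∀ d : ℕ, 1 ≤ d →
      ∃ (S : Type) (_ : MeasurableSpace S) (P : Measure S) (F : S → EuclideanSpace ℝ (Fin d) → ℝ),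
        IsStationaryWave P F ∧ ∀ ε : ℝ, 0 < ε → ε ≤ 1 →
          √(2 * ε) / Real.pi ≤ P.real {s | F s 0 ∈ Set.Icc (1 - ε) 1}) := by
  refine ⟨fun d S _ P F hF Q x k v hv n hn A mA fA c hc => ?_,
    fun d S _ P F hF x A mA fA c hc => ?_, fun d hd => ?_⟩
  · have := hF.prob
    have h1 := Pool.Agent.U39.SZ.sub2 (P := P) hF.measurable hF.smooth hF.eigen hF.stationary
      hF.moment Q x (fun j => (hv j).le) hn mA fA hc
    rw [Fintype.card_fin] at h1
    unfold directional
    simp only [diffPoly_eq]
    exact h1
  · have := hF.prob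
    exact Pool.Agent.U39.SZ.law_bound hF.measurable hF.smooth hF.eigen hF.stationary hF.moment x
      mA fA hc
  · obtain ⟨i0⟩ : Nonempty (Fin d) := ⟨⟨0, hd⟩⟩
    refine ⟨AddCircle (2 * Real.pi), inferInstance, AddCircle.haarAddCircle,
      Pool.Agent.U39.SZ.pw i0, ⟨inferInstance, Pool.Agent.U39.SZ.pw_meas i0,
        Pool.Agent.U39.SZ.pw_smooth i0, Pool.Agent.U39.SZ.pw_eq i0, Pool.Agent.U39.SZ.pw_stat i0,
        Pool.Agent.U39.SZ.pw_l2 i0⟩, fun ε h0 h1 => Pool.Agent.U39.SZ.pw_law i0 h0 h1⟩

end

end Pool.Agent.Results.MP_a52643_an.SublevelEstimates
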