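import Pool.Agent.U524.SN.Unif

/-!
# Sup norms of Laplace eigenfunctions and their semiclassical measures (MP_a52643_an)

A Riemannian surface in isothermal coordinates: an open set `Ω ⊆ ℂ` with the metric `ρ |dz|²`, area
measure `ρ dx dy`. `dx f z`, `dy f z` are the partial derivatives `fderiv ℝ f z 1`,
`fderiv ℝ f z I`, and `lap f = dx (dx f) + dy (dy f)`; `TF Ω φ` says that `φ : ℂ → ℝ` is smooth
with compact support contained in `Ω`.

The operator `D = (λ ρ)^{-1/2} (∂x - i ∂y)` has, at a unit momentum of direction `α`, the symbol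
`sym α = i exp(-iα)`. `SemiclassicalMeasure` says that `u n` has the semiclassical measure
`m(z) ν_z(dα) dvol(z)` on the unit cosphere bundle over `Ω`: `m` is the density of the limit of
`u² dvol` and `ν_z`, a probability measure, is the law of the direction of the momentum at `z`. In
the quantum ergodic case `m = 1` and `ν_z` is uniform.

The theorem. (1) Bounded eigenfunctions on an open set `U` satisfy the sharp gradient estimate
`|∇u|² / λ ≤ (1 + ε) (M² - u²)`, `M ≥ sup_U |u|`, on compact subsets of `U`, for all large `λ`,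
uniformly in `u`. (2) Their local fourth moments are at most `(3/4) M²` times their local second
moments, up to `o(1)`. (3) If `|u n| ≤ M` on `U` for infinitely many `n`, then the semiclassical
measure satisfies `m(z) (4 - 2 parallel ν_z) ≤ M²` for almost every `z ∈ U`. So
`liminf sup_U u_n² ≥ 2 ess sup_U m` always (attained by plane waves), and
`liminf sup_U u_n² ≥ 4 ess sup_U m` if the directions `ν_z` have no atoms modulo `π`. (4) For quantum
ergodic sequences `liminf sup_U |u n| ≥ 2` for every nonempty open set `U`.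

Proof. (1) The function `w = |∇ arcsin (u/M')|²` satisfies a differential inequality (Bochner's formula),
and the maximum principle is applied to `η w` with the cutoff `η = (1 - |z - z₀|²/r²)²`. The terms with
the unbounded factor `tan φ` are absorbed by the factor `1 / cos² φ` of the good term. (2) Multiply (1)
by `χ u²` and integrate; `3 ∫ χ u² |∇u|² / λ = ∫ χ u⁴ + o(1)` by integration by parts. (3) is (2) together
with the lower bound `∫ m² (3 - (3/2) parallel ν)` for the fourth moments (starting file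
`SemiclassicalFourthMoment`).
-/

set_option autoImplicit false
open MeasureTheory Filter Topology Complex ProbabilityTheory
open scoped ContDiff ENNReal

namespace Pool.Agent.Results.MP_a52643_an.SupNorms

open Pool.Agent.W745.RW

noncomputable section

/-- `u` is a smooth solution of `Δu + lam u = 0` on `U` for the metric `ρ |dz|²` -/
def IsEigen (U : Set ℂ) (ρ : ℂ → ℝ) (lam : ℝ) (u : ℂ → ℝ) : Prop :=
  ContDiffOn ℝ ∞ u U ∧ ∀ z ∈ U, lap u z + lam * (ρ z * u z) = 0

/-- `|∇u|²` in the metric `ρ |dz|²` -/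
def gradSq (ρ : ℂ → ℝ) (u : ℂ → ℝ) (z : ℂ) : ℝ := (dx u z ^ 2 + dy u z ^ 2) / ρ z

/-- `∫ φ dvol` -/
def integ (ρ φ : ℂ → ℝ) : ℝ := ∫ z, φ z * ρ z

/-- the normalised frame derivative `(λ ρ)^{-1/2} (∂x - i ∂y)` -/
def D (ρ : ℂ → ℝ) (lam : ℝ) (f : ℂ → ℂ) (z : ℂ) : ℂ :=
  ((1 / √(lam * ρ z) : ℝ) : ℂ) * (dx f z - I * dy f z)

/-- the symbol of `D` at a unit momentum of direction `α` -/
def sym (α : ℝ) : ℂ := I * Complex.exp (-(α : ℂ) * I)

/-- the probability that two independent directions of law `ν` are parallel (equal or opposite) -/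
def parallel (ν : Measure ℝ) : ℝ :=
  (ν.prod ν).real {p | Real.sin (p.1 - p.2) = 0}

/-- the sequence has the semiclassical measure `m(z) ν_z(dα) dvol(z)` -/
def SemiclassicalMeasure (Ω : Set ℂ) (ρ : ℂ → ℝ) (lam : ℕ → ℝ) (u : ℕ → ℂ → ℝ) (m : ℂ → ℝ)
    (ν : Kernel ℂ ℝ) : Prop :=
  ∀ φ, TF Ω φ → ∀ k : ℕ, Tendsto (fun n => ∫ z, ((φ z * ρ z : ℝ) : ℂ) *
      ((u n z : ℂ) * (D ρ (lam n))^[k] (fun w => (u n w : ℂ)) z)) atTop
      (𝓝 (∫ z, ((φ z * ρ z : ℝ) : ℂ) * ((m z : ℂ) * ∫ α, sym α ^ k ∂(ν z))))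

/-- the sequence is quantum ergodic in the unit cosphere bundle over `Ω` -/
def QuantumErgodic (Ω : Set ℂ) (ρ : ℂ → ℝ) (lam : ℕ → ℝ) (u : ℕ → ℂ → ℝ) : Prop :=
  ∀ φ, TF Ω φ → ∀ k : ℕ, Tendsto (fun n => ∫ z, ((φ z * ρ z : ℝ) : ℂ) *
      ((u n z : ℂ) * (D ρ (lam n))^[k] (fun w => (u n w : ℂ)) z)) atTop
      (𝓝 (if k = 0 then (integ ρ φ : ℂ) else 0))

/-- **Result.** See the head of the file. -/
theorem result (Ω : Set ℂ) (hΩ : IsOpen Ω) (ρ : ℂ → ℝ) (hρ : ContDiffOn ℝ ∞ ρ Ω)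
    (hρ0 : ∀ z ∈ Ω, 0 < ρ z) :
    -- (1) the sharp gradient estimate
    (∀ U : Set ℂ, IsOpen U → U ⊆ Ω → ∀ K : Set ℂ, IsCompact K → K ⊆ U → ∀ ε : ℝ, 0 < ε →
      ∀ᶠ lam : ℝ in atTop, ∀ u : ℂ → ℝ, IsEigen U ρ lam u → ∀ M : ℝ, (∀ z ∈ U, |u z| ≤ M) →
        ∀ z ∈ K, gradSq ρ u z / lam ≤ (1 + ε) * (M ^ 2 - u z ^ 2)) ∧
    -- (2) fourth moments
    (∀ U : Set ℂ, IsOpen U → U ⊆ Ω → ∀ χ : ℂ → ℝ, TF U χ → (∀ z, 0 ≤ χ z) → ∀ M ε : ℝ, 0 < ε →
      ∀ᶠ lam : ℝ in atTop, ∀ u : ℂ → ℝ, IsEigen U ρ lam u → (∀ z ∈ U, |u z| ≤ M) →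
        integ ρ (fun z => χ z * u z ^ 4) ≤
          3 / 4 * M ^ 2 * integ ρ (fun z => χ z * u z ^ 2) + ε) ∧
    ∀ (lam : ℕ → ℝ) (u : ℕ → ℂ → ℝ), (∀ n, 0 < lam n) → Tendsto lam atTop atTop →
      (∀ n, IsEigen Ω ρ (lam n) (u n)) →
      -- (3) sequences with a semiclassical measure
      (∀ (m : ℂ → ℝ) (ν : Kernel ℂ ℝ), IsMarkovKernel ν →
        (∀ K : Set ℂ, IsCompact K → K ⊆ Ω → MemLp m 2 (volume.restrict K)) →
        SemiclassicalMeasure Ω ρ lam u m ν → ∀ U : Set ℂ, IsOpen U → U ⊆ Ω → ∀ M : ℝ,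
        (∃ᶠ n in atTop, ∀ z ∈ U, |u n z| ≤ M) →
        ∀ᵐ z ∂(volume.restrict U), m z * (4 - 2 * parallel (ν z)) ≤ M ^ 2) ∧
      -- (4) quantum ergodic sequences
      (QuantumErgodic Ω ρ lam u → ∀ U : Set ℂ, IsOpen U → U ⊆ Ω → U.Nonempty → ∀ M : ℝ, M < 2 →
        ∀ᶠ n in atTop, ∃ z ∈ U, M < |u n z|) := by
  refine ⟨?_, ?_, ?_⟩
  · intro U hU hUΩ K hK hKU ε hε
    filter_upwards [Pool.Agent.U524.SN.grad_loc hU hK hKU (hρ.mono hUΩ)
      (fun z hz => hρ0 z (hUΩ hz)) hε, eventually_gt_atTop 0] with lam h1 hlam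
    intro u hu M hM z hz
    have h2 : dx u z ^ 2 + dy u z ^ 2 ≤ lam * ((1 + ε) * (ρ z * (M ^ 2 - u z ^ 2))) :=
      h1 u hu.1 hu.2 M hM z hz
    have h3 := hρ0 z (hUΩ (hKU hz))
    unfold gradSq
    rw [div_div, div_le_iff₀ (mul_pos h3 hlam)]
    refine h2.trans (le_of_eq ?_)
    ring
  · intro U hU hUΩ χ hχ hχ0 M ε hε
    filter_upwards [Pool.Agent.U524.SN.fourth hU (hρ.mono hUΩ) (fun z hz => hρ0 z (hUΩ hz))
      hχ.1 hχ.2.1 hχ.2.2 hχ0 M (show (0 : ℝ) < 4 * ε by linarith)] with lam h1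
    intro u hu hM
    have h2 := h1 u hu.1 hu.2 hM
    have e1 : integ ρ (fun z => χ z * u z ^ 4) = ∫ z, χ z * (ρ z * u z ^ 4) := by
      unfold integ
      congr 1; funext z; ring
    have e2 : integ ρ (fun z => χ z * u z ^ 2) = ∫ z, χ z * (ρ z * u z ^ 2) := by
      unfold integ
      congr 1; funext z; ring
    rw [e1, e2]
    linarith
  · intro lam u hpos hlam hu
    refine ⟨?_, ?_⟩
    · intro m ν hν hm hsc U hU hUΩ M hM
      have H := Pool.Agent.TH294.RG.rawG_met (M := Pool.Agent.TH294.RG.MM m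
        Pool.Agent.TH294.RG.ea ν) hΩ hpos hlam hρ hρ0 (fun n => (hu n).1) (fun n => (hu n).2) hsc
      have key := Pool.Agent.U524.SN.main Pool.Agent.TH294.RG.ea_meas Pool.Agent.TH294.RG.ea_norm
        hm H hU hUΩ hM
      refine key.mono fun z hz => ?_
      simp only [Pool.Agent.TH294.RG.par, Pool.Agent.TH294.RG.ea_par] at hz
      exact hz
    · intro hqe U hU hUΩ hne M hM
      have H := Pool.Agent.TH294.RG.rawG_met (M := Pool.Agent.TH294.RG.MM (fun _ => 1)
        Pool.Agent.TH294.RG.ea Pool.Agent.U524.SN.unif) hΩ hpos hlam hρ hρ0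
        (fun n => (hu n).1) (fun n => (hu n).2) (fun φ hφ k => by
          have h1 := hqe φ hφ k
          have e : (∫ z, ((φ z * ρ z : ℝ) : ℂ) * Pool.Agent.TH294.RG.MM (fun _ => 1)
              Pool.Agent.TH294.RG.ea Pool.Agent.U524.SN.unif k z) =
              if k = 0 then (integ ρ φ : ℂ) else 0 := by
            simp only [Pool.Agent.U524.SN.MM_unif]
            by_cases hk : k = 0
            · simp only [hk, if_true, mul_one]
              unfold integ
              exact integral_complex_ofReal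
            · simp only [hk, if_false, mul_zero, integral_zero]
          rw [e]
          exact h1)
      exact Pool.Agent.U524.SN.qe_sup H hU hUΩ hne hM

end

end Pool.Agent.Results.MP_a52643_an.SupNorms
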